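import Mathlib
import Pool.Agent.R758.Cov.Marg

/-!
MP_3c9300_gt. The sharp local inequality for the coordinate sections of a convex body, for every
`s`-cover of a set of coordinates.

Proof. The function `f(x) = vol(K ∩ (x + H_σ^⊥))` on `H_σ` is log-concave. Put `g = f / max f ≤ 1`
and `N_k(y) = (k ∫₀^∞ R^(-k-1) g(y/R) dR)^(-1/k)` (the gauge of Ball's body). Then `N_k` is
sublinear, `∫ exp(-N_k) = k! ∫ g` over `k`-dimensional subspaces, and `N_d ≤ N_k` for `k ≤ d` since
`0 ≤ g ≤ 1`. It remains to apply Barthe's reverse Brascamp–Lieb inequality for coordinate subspaces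
to the function `exp(-N_d)`, where `d = |σ|`.
-/

set_option autoImplicit false
set_option linter.unusedSectionVars false

open MeasureTheory Set Filter Topology
open scoped ENNReal

namespace Pool.Agent.Results.MP_3c9300_gt.LocalSections

open Pool.Agent.R758.Cov

/-- The volume, in dimension `n - |τ|`, of the section of `K` by the affine subspace through `x`
parallel to the orthogonal complement of the span of the `e_i` with `i ∈ τ`. The points of this
subspace are given by their coordinates outside `τ`; the coordinates in `τ` are those of `x`. -/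
noncomputable def secVol {n : ℕ} (K : Set (Fin n → ℝ)) (τ : Finset (Fin n)) (x : Fin n → ℝ) : ℝ :=
  (volume {z : ((τᶜ : Finset (Fin n)) → ℝ) | Function.updateFinset x τᶜ z ∈ K}).toReal

theorem marg_empty {n : ℕ} {K : Set (Fin n → ℝ)} (hK : IsCompact K) (x : Fin n → ℝ) :
    marg K ∅ x = volume K := by
  unfold marg
  rw [Finset.compl_empty, lmarginal_univ, lintegral_indicator_one hK.measurableSet]
  rfl

theorem secVol_eq {n : ℕ} {K : Set (Fin n → ℝ)} (hK : IsCompact K) (τ : Finset (Fin n))
    (x : Fin n → ℝ) : secVol K τ x = (marg K τ x).toReal := by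
  rw [secVol, marg_eq hK]

/-- **Sharp local section inequality.** For every convex body `K` in `ℝ^n`, every proper subset `σ`
of the coordinates and every `s`-cover `τ_1, …, τ_m` of `σ`,
`(∏ (|σ| - |τ_j|)!) / (|σ|!)^(m-s) ∏ vol (K ∩ H_(τ_j)^⊥) ≤ vol(K)^(m-s) M_σ(K)^s`. -/
theorem result {n : ℕ} (K : Set (Fin n → ℝ)) (hK : IsCompact K) (hc : Convex ℝ K)
    (hi : (interior K).Nonempty) (σ : Finset (Fin n)) (_ : σ ≠ Finset.univ) (m s : ℕ)
    (_ : 1 ≤ m) (_ : 1 ≤ s) (τ : Fin m → Finset (Fin n)) (hsub : ∀ j, τ j ⊆ σ)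
    (hcov : ∀ i ∈ σ, (Finset.univ.filter fun j => i ∈ τ j).card = s) :
    (∏ j, ((σ.card - (τ j).card).factorial : ℝ)) / (σ.card.factorial : ℝ) ^ ((m : ℤ) - s) *
        ∏ j, secVol K (τ j) 0 ≤
      (volume K).toReal ^ ((m : ℤ) - s) * (⨆ x, secVol K σ x) ^ s := by
  classical
  have hV0 : volume K ≠ 0 := by
    intro h
    have := measure_mono_null interior_subset h
    exact (isOpen_interior.measure_pos volume hi).ne' this
  have hVt : volume K ≠ ∞ := hK.measure_lt_top.ne
  have hv : 0 < (volume K).toReal := ENNReal.toReal_pos hV0 hVt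
  obtain ⟨B, hB, hBle⟩ := marg_bdd hK σ
  have hmt : ∀ x, marg K σ x ≠ ∞ := fun x => ne_top_of_le_ne_top hB (hBle x)
  set M : ℝ≥0∞ := ⨆ x, marg K σ x with hM
  have hMt : M ≠ ∞ := ne_top_of_le_ne_top hB (iSup_le hBle)
  have hMle : ∀ x, marg K σ x ≤ M := fun x => le_iSup (marg K σ) x
  have hVu : lmarginal (fun _ => volume) σ (marg K σ) 0 = volume K := by
    have := marg_union hK σ ∅ (Finset.empty_subset _) 0
    rwa [Finset.sdiff_empty, marg_empty hK] at this
  have hM0 : M ≠ 0 := by
    intro h
    have h1 : marg K σ = 0 := by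
      funext x
      have := hMle x
      rw [h] at this
      exact le_antisymm this bot_le
    apply hV0
    rw [← hVu, h1]
    unfold lmarginal
    simp
  have hMr : (⨆ x, secVol K σ x) = M.toReal := by
    rw [hM, ENNReal.toReal_iSup hmt]
    congr 1
    funext x
    exact secVol_eq hK σ x
  have hMpos : 0 < M.toReal := ENNReal.toReal_pos hM0 hMt
  rw [hMr]
  rcases Finset.eq_empty_or_nonempty σ with hσ | hσ
  · -- the trivial case of the empty set
    have h1 : ∀ j, τ j = ∅ := fun j => Finset.subset_empty.1 (hσ ▸ hsub j)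
    have h2 : M = volume K := by
      rw [hM, hσ]
      simp_rw [marg_empty hK]
      exact ciSup_const
    rw [h2, hσ]
    simp_rw [h1, secVol_eq hK, marg_empty hK]
    simp only [Finset.card_empty, Nat.sub_self, Nat.factorial_zero, Nat.cast_one,
      Finset.prod_const_one, one_zpow, div_one, one_mul, Finset.prod_const, Finset.card_univ,
      Fintype.card_fin]
    rw [← zpow_natCast, ← zpow_natCast, ← zpow_add₀ hv.ne']
    apply le_of_eq
    congr 1
    ring
  obtain ⟨i0, hi0⟩ := hσ
  have hsm : s ≤ m := by
    rw [← hcov i0 hi0]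
    exact (Finset.card_filter_le _ _).trans (by simp)
  obtain ⟨q, hq⟩ : ∃ q, m = q + s := ⟨m - s, by omega⟩
  have hexp : (m : ℤ) - s = (q : ℤ) := by rw [hq]; push_cast; ring
  rw [hexp, zpow_natCast, zpow_natCast]
  rcases Nat.eq_zero_or_pos q with hq0 | hq0
  · -- all the members are equal to `σ`
    have h1 : ∀ j, τ j = σ := by
      intro j
      apply Finset.Subset.antisymm (hsub j)
      intro i hi
      have h2 := hcov i hi
      have h3 : (Finset.univ.filter fun j => i ∈ τ j) = Finset.univ := by
        apply Finset.eq_univ_of_card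
        rw [h2, Fintype.card_fin]
        omega
      have h4 : j ∈ (Finset.univ.filter fun j => i ∈ τ j) := by rw [h3]; exact Finset.mem_univ j
      simpa using h4
    simp_rw [h1, hq0, secVol_eq hK]
    simp only [Nat.sub_self, Nat.factorial_zero, Nat.cast_one, Finset.prod_const_one, pow_zero,
      div_one, one_mul, Finset.prod_const, Finset.card_univ, Fintype.card_fin]
    have : m = s := by omega
    rw [this]
    gcongr
    exact hMle 0
  · -- the main case
    have hcov' : ∀ i ∈ σ, (Finset.univ.filter fun j => i ∈ σ \ τ j).card = q := by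
      intro i hi
      have h1 : (Finset.univ.filter fun j => i ∈ σ \ τ j) =
          (Finset.univ.filter fun j => i ∈ τ j)ᶜ := by
        ext j
        simp [hi]
      rw [h1, Finset.card_compl, hcov i hi, Fintype.card_fin]
      omega
    have key := cover_fun (gg_LC hK hc σ hM0 hMt hMle) σ (Finset.card_pos.2 ⟨i0, hi0⟩)
      (fun j => σ \ τ j) (fun j => Finset.sdiff_subset) q hq0 hcov'
    simp_rw [gg_marg hK σ _ Finset.sdiff_subset hMle, gg_marg hK σ σ subset_rfl hMle,
      marg_union hK σ _ (hsub _), Finset.card_sdiff_of_subset (hsub _)] at key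
    rw [hVu] at key
    have hfin : ((σ.card.factorial : ℝ≥0∞) * (volume K / M)) ^ q ≠ ∞ :=
      ENNReal.pow_ne_top (ENNReal.mul_ne_top (ENNReal.natCast_ne_top _)
        (ENNReal.div_ne_top hVt hM0))
    have key2 := ENNReal.toReal_mono hfin key
    rw [ENNReal.toReal_prod, ENNReal.toReal_pow] at key2
    simp_rw [ENNReal.toReal_mul, ENNReal.toReal_div, ENNReal.toReal_natCast, ← secVol_eq hK]
      at key2
    set v := (volume K).toReal with hvdef
    set μ := M.toReal with hμ
    have hd : (0 : ℝ) < σ.card.factorial := by exact_mod_cast Nat.factorial_pos _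
    have e1 : ∏ j, (((σ.card - (τ j).card).factorial : ℝ) * (secVol K (τ j) 0 / μ)) =
        (∏ j, ((σ.card - (τ j).card).factorial : ℝ)) * (∏ j, secVol K (τ j) 0) / μ ^ m := by
      rw [Finset.prod_mul_distrib, Finset.prod_div_distrib, Finset.prod_const, Finset.card_univ,
        Fintype.card_fin, mul_div_assoc]
    rw [e1, div_le_iff₀ (by positivity)] at key2
    rw [div_mul_eq_mul_div, div_le_iff₀ (by positivity)]
    refine key2.trans (le_of_eq ?_)
    rw [hq, pow_add, mul_pow, div_pow]
    have : μ ^ q ≠ 0 := by positivity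
    field_simp

end Pool.Agent.Results.MP_3c9300_gt.LocalSections
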